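import Pool.Agent.H583.AR.Points

/-!
# Oesterlé's inequality for linked systems of abc triples, at all heights

Different rational numbers `x_0, …, x_n` (up to a common factor) give a system of abc triples
`x_i + (x_j - x_i) = x_j`. If Oesterlé's inequality `c < rad(abc) ^ M` holds, the height of
`(x_0 : … : x_n)` is at most a power of the product `rad` of all primes which divide one of the
numbers `x_i`, `x_i - x_j` (for coprime integral coordinates). We show that this is true unconditionally
up to at most `C X ^ (1 / 3 + ε)` exceptions with `rad ≤ X`, whatever their height, for every `n`.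
The points `(x_0 : … : x_n)` are the points of the moduli space `M_{0, n + 3}`, and `log rad` is the
truncated counting function for its boundary.

More generally, let `D` be the sum of the hyperplanes `L i = 0` of `P ^ n` over `ℚ`. We consider the
arrangements with the following property for some `k ≥ 3`: there is a set of forms of the arrangement
which spans all linear forms such that for any two of them at least `k` hyperplanes of the arrangement
contain their intersection; any three forms of such a pencil give an abc triple for each point. In the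
example above `k = 3`; for the arrangements of type `B`, given by `x_i = 0` and `x_i = ± x_j`, we have
`k = 4`. We show: for every finite set `S` of primes and `ε > 0` there are `κ` and `C` such that for
all `X ≥ 1` at most `C X ^ (1 / k + ε)` rational points off `D` with `N^(1)_S(D, P) ≤ log X`, of
whatever height, violate `h(P) ≤ κ N^(1)_S(D, P)`.

Method: a new bound for abc triples in which the primes of a given finite set `K` cost nothing: the
exceptional triples two members of which have `N₁` and `N₂` as the products of their primes outside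
`K` are at most `C ^ |K| X ^ ε √(N₁ N₂)` in number (the library has `K = ∅`; the proof with weights
is in `H583/WT`). If one quotient of two forms of the spanning set is large, then for every third
form one of its quotients by the first two is large, hence exceptional. So the values of the forms
are found one after the other, each time with the primes known from the previous forms as `K`; the
number of choices for the next value is at most `C X ^ ε ν ^ (1 / k)`, where `ν` is the product of the
new primes. The product of all these `ν` is at most `X`.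
-/

set_option autoImplicit false

namespace Pool.Agent.Results.MP_2ec8a3_nt.LinkedTriples

open Finset

/-- the value of the linear form `L i` at the integral vector `x` -/
def val {n q : ℕ} (L : Fin q → Fin (n + 1) → ℤ) (x : Fin (n + 1) → ℤ) (i : Fin q) : ℤ :=
  ∑ l, L i l * x l

/-- the linear form `L i` as a vector -/
def vec {n q : ℕ} (L : Fin q → Fin (n + 1) → ℤ) (i : Fin q) : Fin (n + 1) → ℚ :=
  fun l => (L i l : ℚ)

/-- the hyperplanes `L i = 0` and `L j = 0` are different, and at least `k` different hyperplanes of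
the arrangement contain their intersection -/
def Pencil {n q : ℕ} (k : ℕ) (L : Fin q → Fin (n + 1) → ℤ) (i j : Fin q) : Prop :=
  LinearIndependent ℚ ![vec L i, vec L j] ∧ ∃ f : Fin k → Fin q,
    (∀ a b, a ≠ b → LinearIndependent ℚ ![vec L (f a), vec L (f b)]) ∧
    ∀ a, vec L (f a) ∈ Submodule.span ℚ {vec L i, vec L j}

/-- there is a set `B` of forms of the arrangement which spans all linear forms such that at least
`k` hyperplanes of the arrangement contain the intersection of any two of them -/
def Pencils {n q : ℕ} (k : ℕ) (L : Fin q → Fin (n + 1) → ℤ) : Prop :=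
  ∃ B : Set (Fin q), Submodule.span ℚ (vec L '' B) = ⊤ ∧ B.Pairwise (Pencil k L)

/-- the arrangement contains the hyperplanes `x_i = 0` and `x_i = x_j`; the complement of these is
the moduli space `M_{0, n + 3}` of `n + 3` different points `0, ∞, x_0, …, x_n` of the line -/
def ContainsBraid {n q : ℕ} (L : Fin q → Fin (n + 1) → ℤ) : Prop :=
  (∀ i : Fin (n + 1), ∃ j, L j = Pi.single i 1) ∧
    ∀ i i' : Fin (n + 1), i ≠ i' → ∃ j, L j = Pi.single i 1 - Pi.single i' 1

/-- the arrangement contains the hyperplanes `x_i = 0`, `x_i = x_j` and `x_i = - x_j` -/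
def ContainsTypeB {n q : ℕ} (L : Fin q → Fin (n + 1) → ℤ) : Prop :=
  ContainsBraid L ∧ ∀ i i' : Fin (n + 1), i ≠ i' → ∃ j, L j = Pi.single i 1 + Pi.single i' 1

/-- `x` is a vector of coprime integral coordinates of a rational point of `P ^ n` which is on none
of the hyperplanes -/
def IsPoint {n q : ℕ} (L : Fin q → Fin (n + 1) → ℤ) (x : Fin (n + 1) → ℤ) : Prop :=
  univ.gcd x = 1 ∧ ∀ i, val L x i ≠ 0

/-- the truncated counting function `N^(1)_S(D, x)`: the sum of `log p` over the primes `p` not in
`S` which divide one of the `L i (x)` -/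
noncomputable def counting {n q : ℕ} (S : Finset ℕ) (L : Fin q → Fin (n + 1) → ℤ)
    (x : Fin (n + 1) → ℤ) : ℝ :=
  ∑ p ∈ (∏ i, val L x i).natAbs.primeFactors \ S, Real.log p

/-- the logarithmic height -/
noncomputable def height {n : ℕ} (x : Fin (n + 1) → ℤ) : ℝ :=
  Real.log ((univ.sup fun l => (x l).natAbs : ℕ) : ℝ)

/-- the points (each with two vectors `x`, `-x`) off `D` with `N^(1)_S(D, x) ≤ log X` and with
`κ N^(1)_S(D, x) < h(x)`; there is no upper bound on `h(x)` -/
def Exceptional {n q : ℕ} (S : Finset ℕ) (L : Fin q → Fin (n + 1) → ℤ) (κ X : ℝ) :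
    Set (Fin (n + 1) → ℤ) :=
  {x | IsPoint L x ∧ counting S L x ≤ Real.log X ∧ κ * counting S L x < height x}

open Pool.Agent.H583.AR

theorem counting_eq {n q : ℕ} (S : Finset ℕ) (L : Fin q → Fin (n + 1) → ℤ)
    (x : Fin (n + 1) → ℤ) : counting S L x = Real.log (rd S L x) := by
  unfold counting rd
  push_cast
  rw [Real.log_prod]
  · rfl
  intro p hp
  exact_mod_cast (Nat.prime_of_mem_primeFactors (mem_sdiff.1 hp).1).ne_zero

/-- a bound for all finite subsets is a bound for the set -/
theorem of_bound {α : Type*} {S : Set α} {B : ℝ}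
    (hB : ∀ Q : Finset α, (∀ q ∈ Q, q ∈ S) → (Q.card : ℝ) ≤ B) :
    S.Finite ∧ (S.ncard : ℝ) ≤ B := by
  have hf : S.Finite := by
    by_contra hcon
    obtain ⟨t, ht, hc⟩ := Set.Infinite.exists_subset_card_eq hcon (⌊B⌋₊ + 1)
    have h1 := hB t fun q hq => ht (Finset.mem_coe.2 hq)
    rw [hc] at h1
    have h2 := Nat.lt_floor_add_one B
    push_cast at h1
    linarith
  refine ⟨hf, ?_⟩
  rw [Set.ncard_eq_toFinset_card S hf]
  exact hB _ fun q hq => hf.mem_toFinset.mp hq

/-- a common denominator for a relation -/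
theorem clear_den {n q : ℕ} {L : Fin q → Fin (n + 1) → ℤ} {i j m : Fin q}
    (h : vec L m ∈ Submodule.span ℚ {vec L i, vec L j}) : ∃ (c a b : ℤ), c ≠ 0 ∧
      ∀ l, c * L m l = a * L i l + b * L j l := by
  obtain ⟨r, s, hrs⟩ := Submodule.mem_span_pair.1 h
  refine ⟨r.den * s.den, r.num * s.den, s.num * r.den, ?_, ?_⟩
  · exact mul_ne_zero (by exact_mod_cast r.den_ne_zero) (by exact_mod_cast s.den_ne_zero)
  · intro l
    have h1 := congrFun hrs l
    simp only [Pi.add_apply, Pi.smul_apply, smul_eq_mul, vec] at h1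
    have h2 : (r.num : ℚ) = r * r.den := (Rat.mul_den_eq_num r).symm
    have h3 : (s.num : ℚ) = s * s.den := (Rat.mul_den_eq_num s).symm
    have h4 : ((r.den * s.den * L m l : ℤ) : ℚ) = ((r.num * s.den * L i l +
        s.num * r.den * L j l : ℤ) : ℚ) := by
      push_cast
      rw [← h1, h2, h3]
      ring
    exact_mod_cast h4

/-- the relations of a pencil -/
theorem pencil_rel {n q k : ℕ} {L : Fin q → Fin (n + 1) → ℤ} {i j : Fin q} (h : Pencil k L i j) :
    ∃ (f : Fin k → Fin q) (c : Fin k → ℤ) (F : Fin k → ℤ × ℤ), (∀ a, c a ≠ 0) ∧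
      (∀ a b, a ≠ b → Pool.Agent.H583.SF.det F a b ≠ 0) ∧
      ∀ a l, c a * L (f a) l = (F a).1 * L i l + (F a).2 * L j l := by
  obtain ⟨h1, f, h2, h3⟩ := h
  choose c a b hc hr using fun x => clear_den (h3 x)
  refine ⟨f, c, fun x => (a x, b x), hc, ?_, hr⟩
  intro x y hxy h0
  unfold Pool.Agent.H583.SF.det at h0
  simp only at h0
  have hli := LinearIndependent.pair_iff.1 (h2 x y hxy)
  have e1 : ((b y * c x : ℤ) : ℚ) • vec L (f x) + ((-(b x * c y) : ℤ) : ℚ) • vec L (f y) = 0 := by
    funext l
    simp only [Pi.add_apply, Pi.smul_apply, smul_eq_mul, vec, Pi.zero_apply]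
    have : b y * c x * L (f x) l + -(b x * c y) * L (f y) l = 0 := by
      have g1 := hr x l
      have g2 := hr y l
      linear_combination (b y) * g1 - (b x) * g2 + L i l * h0
    exact_mod_cast this
  have e2 : ((a y * c x : ℤ) : ℚ) • vec L (f x) + ((-(a x * c y) : ℤ) : ℚ) • vec L (f y) = 0 := by
    funext l
    simp only [Pi.add_apply, Pi.smul_apply, smul_eq_mul, vec, Pi.zero_apply]
    have : a y * c x * L (f x) l + -(a x * c y) * L (f y) l = 0 := by
      have g1 := hr x l
      have g2 := hr y l
      linear_combination (a y) * g1 - (a x) * g2 - L j l * h0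
    exact_mod_cast this
  have f1 := (hli _ _ e1).1
  have f2 := (hli _ _ e2).1
  have hb : b y = 0 := by
    have : b y * c x = 0 := by exact_mod_cast f1
    exact (mul_eq_zero.1 this).resolve_right (hc x)
  have ha : a y = 0 := by
    have : a y * c x = 0 := by exact_mod_cast f2
    exact (mul_eq_zero.1 this).resolve_right (hc x)
  have hy : vec L (f y) = 0 := by
    funext l
    have g2 := hr y l
    rw [ha, hb, zero_mul, zero_mul, zero_add] at g2
    have := (mul_eq_zero.1 g2).resolve_left (hc y)
    show ((L (f y) l : ℤ) : ℚ) = 0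
    exact_mod_cast this
  have e3 : (0 : ℚ) • vec L (f x) + (1 : ℚ) • vec L (f y) = 0 := by
    rw [hy]
    simp
  exact one_ne_zero (hli _ _ e3).2

/-- the data of an arrangement with large pencils -/
theorem rels_of_pencils {n q k : ℕ} {L : Fin q → Fin (n + 1) → ℤ} (h : Pencils k L) (hk : 1 ≤ k) :
    ∃ (b : Fin (n + 1) → Fin q) (F : Fin (n + 1) → Fin (n + 1) → Fin k → ℤ × ℤ)
      (f : Fin (n + 1) → Fin (n + 1) → Fin k → Fin q) (c : Fin (n + 1) → Fin (n + 1) → Fin k → ℤ),
      Rels L b F f c := by
  classical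
  obtain ⟨B, hB, hP⟩ := h
  obtain ⟨T, hT1, hT2, hT3⟩ := exists_linearIndependent ℚ (vec L '' B)
  rw [hB] at hT2
  have hTf : T.Finite := hT3.setFinite
  have : Fintype T := hTf.fintype
  have hcard : Fintype.card T = n + 1 := by
    have h1 := finrank_span_eq_card hT3
    rw [Subtype.range_coe, hT2, finrank_top, Module.finrank_fin_fun] at h1
    exact h1.symm
  obtain ⟨e⟩ : Nonempty (Fin (n + 1) ≃ T) := ⟨(Fintype.equivFinOfCardEq hcard).symm⟩
  have hb : ∀ i : Fin (n + 1), ∃ j ∈ B, vec L j = (e i : Fin (n + 1) → ℚ) := fun i => hT1 (e i).2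
  choose b hbB hbe using hb
  have hli : LinearIndependent ℚ (fun i => vec L (b i)) := by
    have : (fun i => vec L (b i)) = (fun t : T => (t : Fin (n + 1) → ℚ)) ∘ e := by
      funext i; exact hbe i
    rw [this]
    exact hT3.comp e e.injective
  have hinj : ∀ i j, i ≠ j → b i ≠ b j := by
    intro i j hij hb
    apply hij
    apply e.injective
    apply Subtype.ext
    rw [← hbe i, ← hbe j, hb]
  have hrel : ∀ i j : Fin (n + 1), ∃ (f : Fin k → Fin q) (c : Fin k → ℤ) (F : Fin k → ℤ × ℤ),
      i ≠ j → (∀ a, c a ≠ 0) ∧ (∀ a b, a ≠ b → Pool.Agent.H583.SF.det F a b ≠ 0) ∧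
      ∀ a l, c a * L (f a) l = (F a).1 * L (b i) l + (F a).2 * L (b j) l := by
    intro i j
    by_cases hij : i = j
    · exact ⟨fun _ => b i, fun _ => 0, fun _ => (0, 0), fun h => absurd hij h⟩
    · obtain ⟨f, c, F, h1⟩ := pencil_rel (hP (hbB i) (hbB j) (hinj i j hij))
      exact ⟨f, c, F, fun _ => h1⟩
  choose f c F hfcF using hrel
  refine ⟨b, F, f, c, ?_, ?_, ?_, ?_⟩
  · intro hdet
    have h1 : ((mx L b).map (Int.castRingHom ℚ)).det = 0 := by
      rw [← RingHom.mapMatrix_apply, ← RingHom.map_det, hdet, map_zero]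
    obtain ⟨v, hv0, hv⟩ := Matrix.exists_vecMul_eq_zero_iff.2 h1
    apply hv0
    have h2 := Fintype.linearIndependent_iff.1 hli v (by
      funext l
      have h3 := congrFun hv l
      rw [Finset.sum_apply]
      simp only [Matrix.vecMul, dotProduct, Pi.zero_apply] at h3
      simp only [Pi.smul_apply, smul_eq_mul, Pi.zero_apply]
      rw [← h3]
      rfl)
    funext i
    exact h2 i
  · intro i j a hij
    exact (hfcF i j hij).1 a
  · intro i j hij
    exact (hfcF i j hij).2.1
  · intro i j hij
    exact (hfcF i j hij).2.2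

/-- pencils of coordinate vectors -/
theorem pencil_of {n q k : ℕ} {L : Fin q → Fin (n + 1) → ℤ} {i i' : Fin (n + 1)} (hi : i ≠ i')
    {j j' : Fin q} (hj : L j = Pi.single i 1) (hj' : L j' = Pi.single i' 1)
    (g : Fin k → ℤ × ℤ) (hg : ∀ a b, a ≠ b → (g a).1 * (g b).2 - (g b).1 * (g a).2 ≠ 0)
    (f : Fin k → Fin q)
    (hf : ∀ a l, L (f a) l = (g a).1 * Pi.single (M := fun _ => ℤ) i 1 l +
      (g a).2 * Pi.single (M := fun _ => ℤ) i' 1 l) : Pencil k L j j' := by
  have hli : ∀ (a b c d : ℤ) (u v : Fin q), a * d - c * b ≠ 0 →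
      (∀ l, L u l = a * Pi.single (M := fun _ => ℤ) i 1 l +
        b * Pi.single (M := fun _ => ℤ) i' 1 l) →
      (∀ l, L v l = c * Pi.single (M := fun _ => ℤ) i 1 l +
        d * Pi.single (M := fun _ => ℤ) i' 1 l) → LinearIndependent ℚ ![vec L u, vec L v] := by
    intro a b c d u v hdet hu hv
    rw [LinearIndependent.pair_iff]
    intro s t hst
    have h1 := congrFun hst i
    have h2 := congrFun hst i'
    simp only [Pi.add_apply, Pi.smul_apply, smul_eq_mul, vec, Pi.zero_apply, hu, hv,
      Pi.single_eq_same, Pi.single_eq_of_ne hi, Pi.single_eq_of_ne hi.symm] at h1 h2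
    push_cast at h1 h2
    have hdet' : (a * d - c * b : ℚ) ≠ 0 := by exact_mod_cast hdet
    constructor
    · apply (mul_eq_zero.1 (_ : (a * d - c * b : ℚ) * s = 0)).resolve_left hdet'
      linear_combination (d : ℚ) * h1 - (c : ℚ) * h2
    · apply (mul_eq_zero.1 (_ : (a * d - c * b : ℚ) * t = 0)).resolve_left hdet'
      linear_combination (a : ℚ) * h2 - (b : ℚ) * h1
  refine ⟨?_, f, ?_, ?_⟩
  · apply hli 1 0 0 1 j j' (by norm_num)
    · intro l; rw [hj]; ring
    · intro l; rw [hj']; ring
  · intro a b hab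
    exact hli _ _ _ _ _ _ (hg a b hab) (hf a) (hf b)
  · intro a
    rw [Submodule.mem_span_pair]
    refine ⟨(g a).1, (g a).2, ?_⟩
    funext l
    simp only [Pi.add_apply, Pi.smul_apply, smul_eq_mul, vec, hj, hj', hf]
    push_cast
    rfl

/-- the coordinate forms span -/
theorem span_coord {n q : ℕ} {L : Fin q → Fin (n + 1) → ℤ} {f : Fin (n + 1) → Fin q}
    (hf : ∀ i, L (f i) = Pi.single i 1) : Submodule.span ℚ (vec L '' Set.range f) = ⊤ := by
  rw [eq_top_iff]
  intro w _
  have h3 : w = ∑ k, w k • vec L (f k) := by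
    funext l
    rw [Finset.sum_apply]
    simp only [vec, hf, Pi.smul_apply, smul_eq_mul]
    rw [Finset.sum_eq_single l]
    · rw [Pi.single_eq_same]
      simp
    · intro k _ hk
      rw [Pi.single_eq_of_ne hk.symm]
      simp
    · intro h
      exact absurd (mem_univ l) h
  rw [h3]
  exact Submodule.sum_mem _ fun k _ => Submodule.smul_mem _ _
    (Submodule.subset_span ⟨f k, ⟨k, rfl⟩, rfl⟩)

/-- the moduli spaces `M_{0, n + 3}` -/
theorem pencils_of_braid {n q : ℕ} {L : Fin q → Fin (n + 1) → ℤ} (h : ContainsBraid L) :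
    Pencils 3 L := by
  obtain ⟨h1, h2⟩ := h
  choose f hf using h1
  refine ⟨Set.range f, span_coord hf, ?_⟩
  rintro _ ⟨i, rfl⟩ _ ⟨i', rfl⟩ hne
  have hii : i ≠ i' := fun h => hne (by rw [h])
  obtain ⟨m, hm⟩ := h2 i i' hii
  refine pencil_of hii (hf i) (hf i') ![(1, 0), (0, 1), (1, -1)] ?_ ![f i, f i', m] ?_
  · decide
  · intro a l
    fin_cases a
    · simp [hf]
    · simp [hf]
    · simp [hm]
      ring

/-- the arrangements of type `B` -/
theorem pencils_of_typeB {n q : ℕ} {L : Fin q → Fin (n + 1) → ℤ} (h : ContainsTypeB L) :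
    Pencils 4 L := by
  obtain ⟨⟨h1, h2⟩, h3⟩ := h
  choose f hf using h1
  refine ⟨Set.range f, span_coord hf, ?_⟩
  rintro _ ⟨i, rfl⟩ _ ⟨i', rfl⟩ hne
  have hii : i ≠ i' := fun h => hne (by rw [h])
  obtain ⟨m, hm⟩ := h2 i i' hii
  obtain ⟨m', hm'⟩ := h3 i i' hii
  refine pencil_of hii (hf i) (hf i') ![(1, 0), (0, 1), (1, -1), (1, 1)] ?_
    ![f i, f i', m, m'] ?_
  · decide
  · intro a l
    fin_cases a
    · simp [hf]
    · simp [hf]
    · simp [hm]
      ring
    · simp [hm']

/-- **Theorem.** Let `k ≥ 3`, and let `D` be an arrangement of hyperplanes of `P ^ n` over `ℚ` with a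
set of forms which spans all forms, such that at least `k` hyperplanes of the arrangement contain
the intersection of any two of them. Let `S` be a finite set of primes and `ε > 0`. There are `κ`
and `C` such that for every `X ≥ 1` at most `C X ^ (1 / k + ε)` rational points `P` off `D` with
`N^(1)_S(D, P) ≤ log X`, of whatever height, satisfy `κ N^(1)_S(D, P) < h(P)`. The hypothesis holds
for the moduli spaces `M_{0, n + 3}` with `k = 3` and for the arrangements of type `B` with
`k = 4`. -/
theorem result :
    (∀ (k n q : ℕ) (L : Fin q → Fin (n + 1) → ℤ), 3 ≤ k → 2 ≤ n → Pencils k L →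
      ∀ (S : Finset ℕ) (ε : ℝ), 0 < ε → ∃ κ C : ℝ, 0 < C ∧ ∀ X : ℝ, 1 ≤ X →
        (Exceptional S L κ X).Finite ∧
        ((Exceptional S L κ X).ncard : ℝ) ≤ C * X ^ (1 / (k : ℝ) + ε)) ∧
    (∀ (n q : ℕ) (L : Fin q → Fin (n + 1) → ℤ), ContainsBraid L → Pencils 3 L) ∧
    (∀ (n q : ℕ) (L : Fin q → Fin (n + 1) → ℤ), ContainsTypeB L → Pencils 4 L) := by
  refine ⟨?_, fun n q L h => pencils_of_braid h, fun n q L h => pencils_of_typeB h⟩
  intro k n q L hk _ h S ε hε
  obtain ⟨b, F, f, c, H⟩ := rels_of_pencils h (by omega)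
  obtain ⟨κ, C, -, hC, hmain⟩ := points hk H S ε hε
  refine ⟨κ, C, hC, fun X hX => of_bound fun Q hQ => hmain X hX Q ?_⟩
  intro x hx
  obtain ⟨⟨h1, h2⟩, h3, h4⟩ := hQ x hx
  have hr := rd_pos S L x
  have hr' : (0 : ℝ) < rd S L x := by exact_mod_cast hr
  rw [counting_eq] at h3 h4
  exact ⟨h1, h2, (Real.log_le_log_iff hr' (by linarith)).1 h3, h4⟩

end Pool.Agent.Results.MP_2ec8a3_nt.LinkedTriples
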