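import Pool.Agent.H583.SA.E

/-!
# Sums over the abc triples and over the points of arrangements: the domain of convergence

Let `L₁, …, L_n` be integral linear forms in `r ≥ 2` variables. Any three of them with a linear relation
give, at a primitive integral point `x`, an abc triple (up to constants). We study the sums

`Z (s, t) = ∑_x ‖x‖ ^ (-t) ∏_i rad (L_i (x)) ^ (-s_i)`

over all the primitive integral points `x`, of whatever height, where no form vanishes.

The arrangement is assumed to be irreducible and generated: each set of the forms which spans is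
everything as soon as it contains each form dependent on two of its elements. The irreducible
supersolvable arrangements are such (`supersolvable` below): three and more forms in two variables, the
differences `x_i - x_j` (point configurations), the type `B`, the chordal graphs.

For `t > 0` and `s_i ≥ 0`, and for `t = 0` and `s_i > 0`, the sum converges if and only if for each
nonzero subspace `W` of `ℚ ^ r`

`dim W < t + ∑ s_i`, the sum over the forms which do not vanish on `W`.

For `t > 0` this is a matter of points of polynomial height; for `t = 0` the points of all heights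
count in the same way, whatever their height, and there the proof uses two `p`-adic logarithms,
interpolation determinants and so on (the theorem `fam_exceptions` of the starting library).

For the forms `a`, `b`, `a + b` (the abc triples) Oesterlé's weak form of the abc conjecture says that
there are also points `(s, t)` with `t < 0` where the sum converges.

Proof of convergence. The radicals of two dependent forms leave `O (X ^ ε)` possibilities for the ratio
and for the radical of the third form; hence the radicals of the forms of a spanning set leave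
`O (X ^ ε)` possibilities for the point. For each vector `u` of the logarithms of the radicals there is
(greedy algorithm, that is, duality of linear programming for the polytope of the bases of a matroid) a
spanning set `B` with `(1 + δ) ∑_B u_i ≤ t max u_i + ∑ s_i u_i`.

Divergence: the points `x₀ + M w`, where `w` is an integral point of `W`.
-/

set_option autoImplicit false

namespace Pool.Agent.Results.MP_2ec8a3_nt.ConvergenceDomain

open Finset Pool.Agent.H583.SA Pool.Agent.H583.SF

variable {n r : ℕ}

/-- the radical: the product of the primes which divide the integer -/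
def radical (v : ℤ) : ℕ := ∏ p ∈ v.natAbs.primeFactors, p

/-- the three linear forms `L_i`, `L_j`, `L_l` satisfy a linear relation with three nonzero coefficients -/
def Dependent (L : Fin n → Fin r → ℤ) (i j l : Fin n) : Prop :=
  ∃ a b c : ℤ, a ≠ 0 ∧ b ≠ 0 ∧ c ≠ 0 ∧ ∀ k, a * L i k + b * L j k + c * L l k = 0

/-- generated arrangements: the linear forms `L_i (x) = ∑ L i k * x k` are not zero; they have no common
zero; the space is not a direct sum of two nonzero subspaces such that each form vanishes on one of them;
a set of the forms without common zero which contains each form dependent on two of its elements is the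
set of all forms -/
structure Generated (L : Fin n → Fin r → ℤ) : Prop where
  nonzero : ∀ i, ∃ k, L i k ≠ 0
  essential : ∀ x : Fin r → ℚ, (∀ i, ∑ k, (L i k : ℚ) * x k = 0) → x = 0
  irreducible : ∀ U V : Submodule ℚ (Fin r → ℚ), IsCompl U V →
    (∀ i, (∀ x ∈ U, ∑ k, (L i k : ℚ) * x k = 0) ∨ (∀ x ∈ V, ∑ k, (L i k : ℚ) * x k = 0)) →
    U = ⊥ ∨ V = ⊥
  generated : ∀ S : Set (Fin n), (∀ i j l, Dependent L i j l → i ∈ S → j ∈ S → l ∈ S) →
    (∀ x : Fin r → ℚ, (∀ i ∈ S, ∑ k, (L i k : ℚ) * x k = 0) → x = 0) → S = Set.univ

/-- the sum of `‖x‖ ^ (-t) ∏ rad (L_i (x)) ^ (-s_i)` over all the primitive integral points `x` where no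
form vanishes converges; `‖x‖` is the largest absolute value of a coordinate -/
def Converges (L : Fin n → Fin r → ℤ) (s : Fin n → ℝ) (t : ℝ) : Prop :=
  Summable fun x : {x : Fin r → ℤ // Finset.univ.gcd x = 1 ∧ ∀ i, ∑ k, L i k * x k ≠ 0} =>
    ‖x.1‖ ^ (-t) * ∏ i, (radical (∑ k, L i k * x.1 k) : ℝ) ^ (-s i)

theorem Generated.ar {L : Fin n → Fin r → ℤ} (h : Generated L) : Ar L :=
  ⟨h.nonzero, h.essential, h.irreducible, fun S hS hsp i => by
    have h1 := h.generated {i | S i} (fun i j l hd hi hj => hS i j l hd hi hj) hsp
    have h2 : i ∈ ({i | S i} : Set (Fin n)) := by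
      rw [h1]
      exact Set.mem_univ i
    exact h2⟩

/-- the irreducible supersolvable arrangements are generated: the levels `lv` are a partition of the
forms in `r` sets such that any two forms of the same level are dependent with a form of a lower level -/
theorem supersolvable {L : Fin n → Fin r → ℤ} (lv : Fin n → Fin r)
    (h1 : ∀ x : Fin r → ℚ, (∀ i, ∑ k, (L i k : ℚ) * x k = 0) → x = 0)
    (h2 : ∀ i j, i ≠ j → lv i = lv j → ∃ l, lv l < lv i ∧ Dependent L i j l)
    (h3 : ∀ U V : Submodule ℚ (Fin r → ℚ), IsCompl U V →
      (∀ i, (∀ x ∈ U, ∑ k, (L i k : ℚ) * x k = 0) ∨ (∀ x ∈ V, ∑ k, (L i k : ℚ) * x k = 0)) →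
      U = ⊥ ∨ V = ⊥) : Generated L := by
  have hL : Sp L lv := ⟨h1, h2⟩
  have hA : Ar L := hL.ar h3
  refine ⟨hA.ne, h1, h3, fun S hS hsp => ?_⟩
  rw [Set.eq_univ_iff_forall]
  exact hA.gen (fun i => i ∈ S) hS hsp

theorem converges_iff (L : Fin n → Fin r → ℤ) (s : Fin n → ℝ) (t : ℝ) :
    Converges L s t ↔ Summable fun x : {x : Fin r → ℤ // Pt L x} => term L s t x.1 := by
  have e : ∀ x : Fin r → ℤ, (Finset.univ.gcd x = 1 ∧ ∀ i, ∑ k, L i k * x k ≠ 0) ↔ Pt L x :=
    fun x => ⟨fun h => ⟨h.1, h.2⟩, fun h => ⟨h.gcd, h.ne⟩⟩
  rw [← (Equiv.subtypeEquivRight e).summable_iff]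
  rfl

open Classical in
/-- **Theorem.** (1) For a generated arrangement of forms in `r ≥ 2` variables, `t > 0` and `s_i ≥ 0`, or
`t = 0` and `s_i > 0`, the
sum of `‖x‖ ^ (-t) ∏ rad (L_i (x)) ^ (-s_i)` over all the primitive integral points off the arrangement,
of all heights, converges if and only if `dim W < t + ∑ s_i`, the sum over the forms which do not vanish
on `W`, for every nonzero subspace `W`. (2) Oesterlé's weak form of the abc conjecture holds if and only if
for the forms `a`, `b`, `a + b` the sum converges for some `s` and some `t < 0`. -/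
theorem result :
    (∀ (n r : ℕ) (L : Fin n → Fin r → ℤ), 2 ≤ r → Generated L →
      ∀ (s : Fin n → ℝ) (t : ℝ), (∀ i, 0 ≤ s i) → 0 ≤ t → (∀ i, 0 < t + s i) →
        (Converges L s t ↔ ∀ W : Submodule ℚ (Fin r → ℚ), W ≠ ⊥ →
          (Module.finrank ℚ W : ℝ) <
            t + ∑ i, if ∃ w ∈ W, ∑ k, (L i k : ℚ) * w k ≠ 0 then s i else 0)) ∧
    ((∃ M : ℕ, ∀ a b c : ℕ, 0 < a → 0 < b → Nat.Coprime a b → a + b = c →
        c < (∏ p ∈ (a * b * c).primeFactors, p) ^ M) ↔
      ∃ (s : Fin 3 → ℝ) (t : ℝ), t < 0 ∧ Converges ![![1, 0], ![0, 1], ![1, 1]] s t) := by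
  refine ⟨fun n r L hr hL s t hs ht hst => ?_, ?_⟩
  · rw [converges_iff, main hr hL.ar s hs t ht hst]
    have e : ∀ W : Submodule ℚ (Fin r → ℚ), ∑ i ∈ crs L W, s i =
        ∑ i, if ∃ w ∈ W, ∑ k, (L i k : ℚ) * w k ≠ 0 then s i else 0 := by
      intro W
      rw [← Finset.sum_filter]
      apply Finset.sum_congr _ fun _ _ => rfl
      ext i
      rw [mem_crs, mem_filter]
      exact ⟨fun h => ⟨mem_univ i, h⟩, fun h => h.2⟩
    simp only [e]
  · rw [weak_abc]
    simp only [converges_iff]
    rfl

end Pool.Agent.Results.MP_2ec8a3_nt.ConvergenceDomain
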