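import Pool.Agent.H583.PD.L
import Pool.Agent.H583.PD.E

/-!
# The abc triples of a configuration of `m` integers

Three different integers have three differences, and after the division by their greatest common divisor
these are the members of an abc triple; every abc triple `a + b = c` arises in this way from `0, a, c`.
So a configuration of `m ≥ 3` different integers, up to translations and common factors, is a system
of `m (m - 1) (m - 2) / 6` abc triples with common members, and it is natural to order the configurations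
by the product of the radicals of all `m (m - 1) / 2` differences; for `m = 3` this is the radical of
the abc triple. If all differences are at most `X ^ (2 / (m (m - 1)))` in absolute value, this product is
at most `X`, and there are about `X ^ (2 / m)` such configurations. We show that there are hardly any
others, whatever their heights.

* There are `X ^ (2 / m + o(1))` configurations with a product of radicals at most `X`.
* For all `ε > 0`, up to at most `C X ^ (2 / m - δ)` of them, `δ > 0`, they are as small as possible: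
  all differences are at most `X ^ (2 / (m (m - 1)) + ε)`, and all abc triples of the configuration
  satisfy `c < rad (a b c) ^ (1 / 3 + ε)`, which is best possible.
* At most `C X ^ (ϑ + ε)` of them contain a triple which violates Oesterlé's inequality
  `c < rad (a b c) ^ M`, `M = M (m, ε)`, where
  `ϑ = min (1 / 3) (2 (m - 2) / (m ^ 2 - 2 m + 3)) < 2 / m`.
* At most `C X ^ (1 / m + ε)` of them consist of such triples only.

Method. Let `u_ij` be the logarithm of the radical of `x_i - x_j`. For a pair `i, j` the configuration is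
determined, up to its sign, by the ratios `y_k = (x_k - x_i) / (x_i - x_j)`, and the radical of the
denominator of `y_k` divides that of `x_i - x_j`. For given radicals there are at most
`X ^ ε exp (min (u_ik, u_jk))` values of `y_k` of any height: the numbers of bounded height are counted
directly, those of large height by the library's bound for the exceptions to Oesterlé's inequality in
which two members have radicals in given families (`fam_exceptions`). This gives a bound for the number of
configurations for each pair `i, j`, and others which start with the count of the exceptional triples of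
three given points (`exp ((r_1 + r_2) / 2)`, or `exp ((2 / 3 - η) (r_1 + r_2 + r_3))` for the triples with
`c ≥ rad ^ λ`, `λ > 1 / 3`; the `r_i` are the logarithms of the radicals of the members). The theorem is
the solution of the resulting linear programmes.
-/

set_option autoImplicit false

namespace Pool.Agent.Results.MP_2ec8a3_nt.PointConfigurations

open Finset

/-- the product of the primes which divide the integer `n` -/
def radical (n : ℤ) : ℕ := ∏ p ∈ n.natAbs.primeFactors, p

/-- `m` different integers, the first of which is `0`, without a common divisor: the configurations of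
`m` different integers up to translations and common factors (`x` and `-x` both count) -/
structure IsConfiguration {m : ℕ} (x : Fin m → ℤ) : Prop where
  different : Function.Injective x
  first : ∀ i : Fin m, (i : ℕ) = 0 → x i = 0
  coprime : univ.gcd x = 1

/-- the product of the radicals of all differences -/
def radicals {m : ℕ} (x : Fin m → ℤ) : ℕ :=
  ∏ p ∈ univ.filter (fun p : Fin m × Fin m => p.1 < p.2), radical (x p.1 - x p.2)

/-- the configurations with a product of radicals at most `X` -/
def Configurations (m X : ℕ) : Set (Fin m → ℤ) := {x | IsConfiguration x ∧ radicals x ≤ X}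

/-- the greatest common divisor of the three differences of three numbers of the configuration -/
def common {m : ℕ} (x : Fin m → ℤ) (i j k : Fin m) : ℕ := Int.gcd (x k - x i) (x i - x j)

/-- the absolute value `c` of the largest member of the abc triple of three numbers of the configuration;
the members are the three differences, divided by their greatest common divisor -/
def largest {m : ℕ} (x : Fin m → ℤ) (i j k : Fin m) : ℕ :=
  max (max (x k - x i).natAbs (x i - x j).natAbs) (x k - x j).natAbs / common x i j k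

/-- the radical of the product of the members of this abc triple -/
def tripleRadical {m : ℕ} (x : Fin m → ℤ) (i j k : Fin m) : ℕ :=
  radical ((x k - x i) / common x i j k * ((x i - x j) / common x i j k) *
    ((x k - x j) / common x i j k))

/-- the configuration is as small as possible up to `ε`: all differences are at most
`X ^ (2 / (m (m - 1)) + ε)`, and all abc triples satisfy `c < rad (a b c) ^ (1 / 3 + ε)` -/
def Typical {m : ℕ} (ε : ℝ) (X : ℕ) (x : Fin m → ℤ) : Prop :=
  (∀ i j, ((x i - x j).natAbs : ℝ) ≤ (X : ℝ) ^ (2 / ((m : ℝ) * (m - 1)) + ε)) ∧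
  ∀ i j k, i ≠ j → i ≠ k → j ≠ k →
    (largest x i j k : ℝ) < (tripleRadical x i j k : ℝ) ^ (1 / 3 + ε)

/-- the abc triple of the three numbers violates `c < rad (a b c) ^ M` -/
def Exceptional {m : ℕ} (M : ℕ) (x : Fin m → ℤ) (i j k : Fin m) : Prop :=
  tripleRadical x i j k ^ M ≤ largest x i j k

open Pool.Agent.H583.PD Pool.Agent.H583.GD Pool.Agent.H583.WT Pool.Agent.H583.SF
  Pool.Agent.H583.AL Pool.Agent.H583.AR Pool.Agent.T2H20.ABC Pool.Agent.T2H20.AH

theorem radical_eq (n : ℤ) : radical n = zr n := rfl

theorem radicals_eq {m : ℕ} (x : Fin m → ℤ) : radicals x = pr x := rfl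

theorem conf_iff {m : ℕ} (x : Fin m → ℤ) : IsConfiguration x ↔ Cf x :=
  ⟨fun h => ⟨h.1, h.2, h.3⟩, fun h => ⟨h.1, h.2, h.3⟩⟩

theorem mem_iff {m X : ℕ} (x : Fin m → ℤ) : x ∈ Configurations m X ↔ Cf x ∧ pr x ≤ X := by
  unfold Configurations
  rw [Set.mem_setOf_eq, conf_iff, radicals_eq]

theorem triple_eq {m : ℕ} {x : Fin m → ℤ} (h : Cf x) {i j k : Fin m} (hij : i ≠ j) :
    largest x i j k = Cc (yy i j k x) ∧ tripleRadical x i j k = zr (U (yy i j k x)) := by
  obtain ⟨c, h1, h2, h3⟩ := yy_eq (k := k) h hij
  obtain ⟨y, hy⟩ : ∃ y, y = yy i j k x := ⟨_, rfl⟩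
  rw [← hy] at h1 h2 h3 ⊢
  have hc : c ≠ 0 := by
    intro h0
    rw [h0, zero_mul] at h2
    exact df_ne h hij h2
  have hg : common x i j k = c.natAbs := by
    unfold common
    rw [h1, h2, Int.gcd_mul_left]
    have h4 : Int.gcd y.num y.den = 1 := by
      have := y.reduced
      unfold Int.gcd
      rw [Int.natAbs_natCast]
      exact this
    rw [h4, mul_one]
  have hc0 : 0 < c.natAbs := Int.natAbs_pos.2 hc
  constructor
  · unfold largest Cc
    rw [hg, h1, h2, h3, Int.natAbs_mul, Int.natAbs_mul, Int.natAbs_mul, Int.natAbs_natCast,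
      Nat.mul_max_mul_left, Nat.mul_max_mul_left, Nat.mul_div_cancel_left _ hc0]
  · unfold tripleRadical
    rw [hg, h1, h2, h3]
    have hdiv : ∀ n : ℤ, c * n / (c.natAbs : ℤ) = c.sign * n := by
      intro n
      have h5 : c = c.sign * c.natAbs := (Int.sign_mul_natAbs c).symm
      have h6 : c * n = (c.sign * n) * (c.natAbs : ℤ) := by
        conv_lhs => rw [h5]
        ring
      rw [h6, Int.mul_ediv_cancel _ (by exact_mod_cast hc0.ne')]
    rw [hdiv, hdiv, hdiv, radical_eq]
    unfold U zr
    congr 1
    rw [Int.natAbs_mul, Int.natAbs_mul, Int.natAbs_mul, Int.natAbs_mul, Int.natAbs_mul,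
      Int.natAbs_mul, Int.natAbs_mul, Int.natAbs_sign_of_ne_zero hc, one_mul, one_mul, one_mul]

/-- **Theorem.** Let `m ≥ 3` and `ε > 0`. (1) The configurations of `m` integers with a product of the
radicals of the differences at most `X` are `X ^ (2 / m + o(1))` in number. (2) At most
`C X ^ (2 / m - δ)` of them, with `δ > 0`, do not satisfy: all differences are at most
`X ^ (2 / (m (m - 1)) + ε)`, and `c < rad (a b c) ^ (1 / 3 + ε)` for all abc triples of the configuration.
(3) For some `M` at most `C X ^ (ϑ + ε)` of them have an abc triple which violates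
`c < rad (a b c) ^ M`, where `ϑ = min (1 / 3) (2 (m - 2) / (m ^ 2 - 2 m + 3))`, and (4) for at most
`C X ^ (1 / m + ε)` of them all abc triples do so. -/
theorem result (m : ℕ) (hm : 3 ≤ m) (ε : ℝ) (hε : 0 < ε) :
    (∃ c C X₀ : ℝ, 0 < c ∧ ∀ X : ℕ, X₀ ≤ (X : ℝ) → (Configurations m X).Finite ∧
      c * (X : ℝ) ^ (2 / (m : ℝ)) ≤ ((Configurations m X).ncard : ℝ) ∧
      ((Configurations m X).ncard : ℝ) ≤ C * (X : ℝ) ^ (2 / (m : ℝ) + ε)) ∧
    (∃ δ C : ℝ, 0 < δ ∧ ∀ X : ℕ, 1 ≤ X →
      ({x ∈ Configurations m X | ¬ Typical ε X x}.ncard : ℝ) ≤ C * (X : ℝ) ^ (2 / (m : ℝ) - δ)) ∧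
    ∃ (M : ℕ) (C : ℝ), ∀ X : ℕ, 1 ≤ X →
      ({x ∈ Configurations m X | ∃ i j k, i ≠ j ∧ i ≠ k ∧ j ≠ k ∧ Exceptional M x i j k}.ncard : ℝ) ≤
        C * (X : ℝ) ^ (min (1 / 3) (2 * ((m : ℝ) - 2) / (m ^ 2 - 2 * m + 3)) + ε) ∧
      ({x ∈ Configurations m X | ∀ i j k, i ≠ j → i ≠ k → j ≠ k → Exceptional M x i j k}.ncard : ℝ) ≤
        C * (X : ℝ) ^ (1 / (m : ℝ) + ε) := by
  have hm3 : (3 : ℝ) ≤ m := by exact_mod_cast hm
  refine ⟨?_, ?_, ?_⟩
  · obtain ⟨c, X₀, hc, hX₀, hlow⟩ := lower hm
    obtain ⟨M, C, -, hC, hup⟩ := upper hm ε hε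
    refine ⟨c, C, X₀, hc, ?_⟩
    intro X hX
    have hX1 : 1 ≤ X := by exact_mod_cast hX₀.trans hX
    obtain ⟨h1, h2⟩ := MP_2ec8a3_nt.LinkedTriples.of_bound (S := Configurations m X)
      (B := C * (X : ℝ) ^ (2 / (m : ℝ) + ε)) (fun Q hQ =>
        (hup X hX1 Q fun x hx => (mem_iff x).1 (hQ x hx)).1)
    refine ⟨h1, ?_, h2⟩
    obtain ⟨Q, hQ1, hQ2⟩ := hlow X hX
    refine hQ2.trans ?_
    have h3 : (Q : Set (Fin m → ℤ)) ⊆ Configurations m X := by
      intro x hx
      rw [mem_iff]
      obtain ⟨a1, a2⟩ := hQ1 x (Finset.mem_coe.1 hx)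
      exact ⟨a1, by exact_mod_cast a2⟩
    have h4 := Set.ncard_le_ncard h3 h1
    rw [Set.ncard_coe_finset] at h4
    exact_mod_cast h4
  · obtain ⟨κ, hκ⟩ : ∃ κ : ℝ, κ = min 1 (ε / (7 * m)) := ⟨_, rfl⟩
    have hκ0 : 0 < κ := by
      rw [hκ]
      exact lt_min one_pos (by positivity)
    have hκ1 : κ ≤ 1 := by
      rw [hκ]
      exact min_le_left _ _
    have hκε : 7 * m * κ ≤ ε := by
      have h1 : κ ≤ ε / (7 * m) := by
        rw [hκ]
        exact min_le_right _ _
      rw [le_div_iff₀ (by positivity)] at h1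
      linarith
    have hκε' : κ ≤ ε := by nlinarith
    obtain ⟨δ, C, hδ, hC, h⟩ := thin hm κ hκ0 hκ1
    refine ⟨δ, C, hδ, ?_⟩
    intro X hX
    have hX1 : (1 : ℝ) ≤ X := by exact_mod_cast hX
    refine (MP_2ec8a3_nt.LinkedTriples.of_bound (B := C * (X : ℝ) ^ (2 / (m : ℝ) - δ)) ?_).2
    intro Q hQ
    apply h X hX Q
    intro x hx
    obtain ⟨h1, h2⟩ := hQ x hx
    rw [mem_iff] at h1
    refine ⟨h1.1, h1.2, ?_⟩
    by_contra hbad
    apply h2
    constructor
    · intro i j
      by_cases hij : i = j
      · rw [hij, sub_self, Int.natAbs_zero, Nat.cast_zero]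
        positivity
      refine (small hm κ hκ0 hκ1 hX h1.1 hbad hij).trans ?_
      apply Real.rpow_le_rpow_of_exponent_le hX1
      linarith
    · intro i j k hij hik hjk
      obtain ⟨e1, e2⟩ := triple_eq (k := k) h1.1 hij
      rw [e1, e2]
      unfold Pool.Agent.H583.PD.Bad at hbad
      push Not at hbad
      refine (hbad.2.1 i j k hij hik hjk).trans_le ?_
      apply Real.rpow_le_rpow_of_exponent_le
      · exact_mod_cast zr_pos _
      · linarith
  · obtain ⟨θ, hθ1, hθ2⟩ : ∃ θ : ℝ, (θ = 1 / 3 ∨ θ = 2 * ((m : ℝ) - 2) / (m ^ 2 - 2 * m + 3)) ∧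
        θ = min (1 / 3) (2 * ((m : ℝ) - 2) / (m ^ 2 - 2 * m + 3)) := by
      rcases le_total (1 / 3 : ℝ) (2 * ((m : ℝ) - 2) / (m ^ 2 - 2 * m + 3)) with hle | hle
      · exact ⟨_, Or.inl rfl, (min_eq_left hle).symm⟩
      · exact ⟨_, Or.inr rfl, (min_eq_right hle).symm⟩
    rw [← hθ2]
    obtain ⟨M₁, C₁, hM₁, hC₁, h₁⟩ := one_exc hm θ ε hε hθ1
    obtain ⟨M₂, C₂, hM₂, hC₂, h₂⟩ := all_exc hm ε hε
    have hmono : ∀ (N : ℕ) (x : Fin m → ℤ) (i j k : Fin m), Cf x → i ≠ j → N ≤ M₁ + M₂ →
        Exceptional (M₁ + M₂) x i j k → Et N x i j k := by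
      intro N x i j k hx hij hN h
      unfold Exceptional at h
      obtain ⟨e1, e2⟩ := triple_eq (k := k) hx hij
      rw [e1, e2] at h
      exact (Nat.pow_le_pow_right (zr_pos _) hN).trans h
    refine ⟨M₁ + M₂, C₁ + C₂, ?_⟩
    intro X hX
    have hX1 : (1 : ℝ) ≤ X := by exact_mod_cast hX
    constructor
    · refine le_trans (MP_2ec8a3_nt.LinkedTriples.of_bound (B := C₁ * (X : ℝ) ^ (θ + ε)) ?_).2 ?_
      · intro Q hQ
        apply h₁ X hX Q
        intro x hx
        obtain ⟨h1, i, j, k, hij, hik, hjk, h2⟩ := hQ x hx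
        rw [mem_iff] at h1
        exact ⟨h1.1, h1.2, i, j, k, hij, hik, hjk, hmono M₁ x i j k h1.1 hij (by omega) h2⟩
      · apply mul_le_mul_of_nonneg_right _ (by positivity)
        linarith
    · refine le_trans (MP_2ec8a3_nt.LinkedTriples.of_bound
        (B := C₂ * (X : ℝ) ^ (1 / (m : ℝ) + ε)) ?_).2 ?_
      · intro Q hQ
        apply h₂ X hX Q
        intro x hx
        obtain ⟨h1, h2⟩ := hQ x hx
        rw [mem_iff] at h1
        exact ⟨h1.1, h1.2, fun i j k hij hik hjk =>
          hmono M₂ x i j k h1.1 hij (by omega) (h2 i j k hij hik hjk)⟩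
      · apply mul_le_mul_of_nonneg_right _ (by positivity)
        linarith

end Pool.Agent.Results.MP_2ec8a3_nt.PointConfigurations
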