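import Pool.Agent.H583.SF.Main

/-!
# Oesterlé's inequality for the values of products of linear forms, at all heights

Let `F (u, v)` be a product of `k ≥ 3` pairwise non-proportional linear forms with integral
coefficients; for `F = u v (u + v)` the numbers `u, v, u + v` form an abc triple. For every `ε > 0`
there is an exponent `M` such that at most `C X ^ (1 / k + ε)` pairs of coprime integers with
`rad F (u, v) ≤ X`, of any size, violate `max (|u|, |v|) < rad (F (u, v)) ^ M`. (For `k = 3` this is
the theorem `SquareRootAllHeights` of the starting library.) So the more of the numbers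
`a, b, a + b, a - b, a + 2 b, …` are composed of few primes, the fewer exceptions there are. For
instance at most `C X ^ (1 / k + ε)` arithmetic progressions of `k` pairwise coprime integers, whose
product has radical at most `X`, have a term of size at least the `M`-th power of this radical.

Proof: of the `k` values two have radicals with a product at most `(C X) ^ (2 / k)`; together with a
third one they form an abc triple, after division by a bounded number, and the exceptional triples
two members of which have radicals at most `R₁`, `R₂` are at most `C X ^ ε √(R₁ R₂)` in number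
(library).
-/

set_option autoImplicit false

namespace Pool.Agent.Results.MP_2ec8a3_nt.ProductsOfLinearForms

/-- the product of the primes dividing the integer `n` -/
def radical (n : ℤ) : ℕ := ∏ p ∈ n.natAbs.primeFactors, p

/-- the value at `p = (u, v)` of the `i`-th of the linear forms `L`; the form `(a, b)` is `a u + b v` -/
def val {k : ℕ} (L : Fin k → ℤ × ℤ) (i : Fin k) (p : ℤ × ℤ) : ℤ := (L i).1 * p.1 + (L i).2 * p.2

/-- the value of the product of the linear forms -/
def form {k : ℕ} (L : Fin k → ℤ × ℤ) (p : ℤ × ℤ) : ℤ := ∏ i, val L i p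

/-- the pairs `p = (u, v)` of coprime integers with `F (u, v) ≠ 0` and `rad (F (u, v)) ≤ X` which
violate `max (|u|, |v|) < rad (F (u, v)) ^ M`; there is no restriction on the size of `u, v` -/
def exceptions {k : ℕ} (L : Fin k → ℤ × ℤ) (M X : ℕ) : Set (ℤ × ℤ) :=
  {p | IsCoprime p.1 p.2 ∧ form L p ≠ 0 ∧ radical (form L p) ≤ X ∧
    radical (form L p) ^ M ≤ max p.1.natAbs p.2.natAbs}

/-- a bound for all finite subsets is a bound for the set -/
theorem of_bound {α : Type*} {S : Set α} {B : ℝ}
    (hB : ∀ Q : Finset α, (∀ q ∈ Q, q ∈ S) → (Q.card : ℝ) ≤ B) :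
    S.Finite ∧ (S.ncard : ℝ) ≤ B := by
  have hf : S.Finite := by
    by_contra hcon
    obtain ⟨t, ht, hc⟩ := Set.Infinite.exists_subset_card_eq hcon (⌊B⌋₊ + 1)
    have h1 := hB t fun q hq => ht (Finset.mem_coe.2 hq)
    rw [hc] at h1
    have h2 := Nat.lt_floor_add_one B
    push_cast at h1
    linarith
  refine ⟨hf, ?_⟩
  rw [Set.ncard_eq_toFinset_card S hf]
  exact hB _ fun q hq => hf.mem_toFinset.mp hq

/-- **Oesterlé's inequality for products of linear forms.** Let `L` be `k ≥ 3` pairwise
non-proportional linear forms `a u + b v` with integral coefficients, and `F` their product. For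
every `ε > 0` there are `M` and `C` such that for all `X ≥ 1` at most `C X ^ (1 / k + ε)` pairs of
coprime integers with `F (u, v) ≠ 0` and `rad (F (u, v)) ≤ X`, of any size, violate
`max (|u|, |v|) < rad (F (u, v)) ^ M`. -/
theorem result : ∀ k : ℕ, 3 ≤ k → ∀ L : Fin k → ℤ × ℤ,
    (∀ i j, i ≠ j → (L i).1 * (L j).2 - (L j).1 * (L i).2 ≠ 0) →
    ∀ ε : ℝ, 0 < ε → ∃ M : ℕ, ∃ C : ℝ, 0 < C ∧ ∀ X : ℕ, 1 ≤ X → (exceptions L M X).Finite ∧
      ((exceptions L M X).ncard : ℝ) ≤ C * (X : ℝ) ^ (1 / (k : ℝ) + ε) := by
  intro k hk L hL ε hε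
  obtain ⟨M, m, C, -, hC, h⟩ := Pool.Agent.H583.SF.forms_fam k hk L hL ε hε
  refine ⟨M, C, hC, fun X hX => of_bound fun Q hQ => ?_⟩
  have h1 := h X hX (fun _ => True) 1 1 Pool.Agent.T2H20.AH.fml_all Q (by
    intro p hp
    obtain ⟨p1, p2, p3, p4⟩ := hQ p hp
    exact ⟨p1, p2, p3, p4, trivial⟩)
  rwa [one_pow, mul_one] at h1

end Pool.Agent.Results.MP_2ec8a3_nt.ProductsOfLinearForms
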